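import Pool.Agent.KTB.StmtsKB

set_option autoImplicit false

namespace Pool.Agent.KTB.H54

open Pool.Agent.KTB Finset
open scoped Classical

theorem ipx (_hIdn : IdnStmt) (hRay : RayStmt) (hDim : DimStmt) (hFrt : FrtStmt) : IpxStmt := by
  intro ι T _ D S X K μ k t hI hF hV htX
  obtain ⟨p, f, hne, hray, hLL⟩ := hV
  obtain ⟨-, ⟨s, hs1, -, -, hs4⟩, -, -, hnul, -⟩ := hRay ι T D S X p f hray hne
  obtain ⟨hDa, -, -, hDd, hDe⟩ := hDim ι T D
  have hXS : X ⊆ S := hray.1
  have hpos : ∀ r ∈ X, 0 < p r := fun r hr => (hray.2.1 r hr).1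
  have htS : t ∈ S := hXS htX
  have hpt : 0 < p t := hpos t htX
  -- parallel
  have hpar : ∀ b ∈ X, ∀ ρ ∈ D.R S, ρ b = (p b / p t) * ρ t := by
    intro b hb ρ hρ
    rw [hs1 ρ hρ b hb, hs1 ρ hρ t htX]
    field_simp
  have hsg : X ⊆ D.sg S t := by
    intro b hb
    unfold Dat.sg
    rw [mem_filter]
    exact ⟨hXS hb, p b / p t, (div_pos (hpos b hb) hpt).ne', hpar b hb⟩
  have hRX : ∀ ρ ∈ D.R S, (ρ ∈ D.R (S \ X) ↔ ρ t = 0) := by
    intro ρ hρ
    rw [hs4 ρ hρ, hs1 ρ hρ t htX]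
    constructor
    · intro h
      rw [h, mul_zero]
    · intro h
      rcases mul_eq_zero.mp h with h | h
      · exact absurd h hpt.ne'
      · exact h
  have hRmono : ∀ A B : Finset ι, A ⊆ B → ∀ ρ ∈ D.R A, ρ ∈ D.R B := by
    intro A B hAB ρ hρ
    exact ⟨hρ.1, fun a ha => hρ.2 a (fun h => ha (hAB h))⟩
  have hFR := hFrt ι T D S K μ k t hI hF
  have hkK2 : k ∈ K \ D.par S K t := mem_sdiff.mpr ⟨hF.kK, hF.kpar⟩
  have hxk : D.x k t ≠ 0 := by rw [hF.tk]; exact one_ne_zero
  have hE1 : ∀ j ∈ K \ D.par S K t, j ≠ k → D.E (S \ X) j = D.E S j := by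
    intro j hj hjk
    unfold Dat.E
    ext a
    simp only [mem_filter, mem_sdiff]
    constructor
    · rintro ⟨⟨h1, -⟩, h3⟩
      exact ⟨h1, h3⟩
    · rintro ⟨h1, h3⟩
      refine ⟨⟨h1, ?_⟩, h3⟩
      intro haX
      exact hjk (hFR j hj a (hsg haX) h3).1
  have hE2 : D.E (S \ X) k = (D.E S k).erase t := by
    unfold Dat.E
    ext a
    simp only [mem_filter, mem_sdiff, mem_erase]
    constructor
    · rintro ⟨⟨h1, h2⟩, h3⟩
      exact ⟨fun h => h2 (h ▸ htX), h1, h3⟩
    · rintro ⟨h0, h1, h3⟩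
      refine ⟨⟨h1, ?_⟩, h3⟩
      intro haX
      exact h0 (hFR k hkK2 a (hsg haX) h3).2
  have htE : t ∈ D.E S k := by
    unfold Dat.E
    rw [mem_filter]
    exact ⟨htS, hxk⟩
  have hcard : (D.E (S \ X) k).card = (D.E S k).card - 1 := by
    rw [hE2, card_erase_of_mem htE]
  have hbig := hF.big
  -- excess
  have hexc1 : ∀ C ⊆ K \ D.par S K t, k ∉ C → D.exc (S \ X) C = D.exc S C := by
    intro C hC hk
    unfold Dat.exc
    apply sum_congr rfl
    intro j hj
    rw [hE1 j (hC hj) (fun h => hk (h ▸ hj))]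
  have hexc2 : ∀ C ⊆ K \ D.par S K t, k ∈ C → D.exc (S \ X) C + 1 = D.exc S C := by
    intro C hC hk
    have h1 : D.exc (S \ X) C = D.exc (S \ X) (C.erase k) + ((D.E (S \ X) k).card - 2) := by
      unfold Dat.exc
      exact (sum_erase_add C _ hk).symm
    have h2 : D.exc S C = D.exc S (C.erase k) + ((D.E S k).card - 2) := by
      unfold Dat.exc
      exact (sum_erase_add C _ hk).symm
    have h3 := hexc1 (C.erase k) (fun j hj => hC (mem_of_mem_erase hj)) (notMem_erase k C)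
    rw [h1, h2, h3, hcard]
    omega
  have hparK : D.par S K t ⊆ K := filter_subset _ _
  have hpar2 : ∀ j ∈ D.par S K t, (D.E S j).card = 2 := by
    intro j hj
    have h2 := hI.two j (hparK hj)
    have hnem : (D.E S j).Nonempty := by
      rw [← card_pos]; omega
    obtain ⟨y, hy⟩ := hnem
    unfold Dat.E at hy
    rw [mem_filter] at hy
    obtain ⟨y', hy1, hy2, hyy, hx1, hx2, hoth⟩ := hF.pair j hj y hy.1 hy.2
    have hEe : D.E S j = {y, y'} := by
      unfold Dat.E
      ext a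
      simp only [mem_filter, mem_insert, mem_singleton]
      constructor
      · rintro ⟨h1, h3⟩
        by_contra hcon
        push Not at hcon
        exact h3 (hoth a h1 hcon.1 hcon.2)
      · rintro (h | h)
        · rw [h]; exact ⟨hy1, by rw [hx1]; exact one_ne_zero⟩
        · rw [h]; exact ⟨hy2, by rw [hx2]; exact one_ne_zero⟩
    rw [hEe, card_pair hyy]
  have hexcK : D.exc S K = D.exc S (K \ D.par S K t) := by
    unfold Dat.exc
    rw [← sum_sdiff hparK]
    have h0 : ∑ x ∈ D.par S K t, ((D.E S x).card - 2) = 0 := by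
      apply sum_eq_zero
      intro j hj
      rw [hpar2 j hj]
      rfl
    rw [h0, add_zero]
  refine ⟨hsg, ?_⟩
  refine ⟨?_, ?_, ?_, ?_, ?_⟩
  · -- cov
    intro a ha
    unfold Dat.N at ha
    rw [mem_filter, mem_sdiff] at ha
    obtain ⟨⟨haS, haX⟩, ρ, hρ, hρa⟩ := ha
    have hρS : ρ ∈ D.R S := hRmono _ _ sdiff_subset ρ hρ
    have hρt : ρ t = 0 := (hRX ρ hρS).mp hρ
    have haN : a ∈ D.N S := by
      unfold Dat.N
      rw [mem_filter]
      exact ⟨haS, ρ, hρS, hρa⟩
    obtain ⟨j, hjK, hj1, hj0⟩ := hI.cov a haN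
    refine ⟨j, ?_, hj1, fun j' hj' hne' => hj0 j' (mem_sdiff.mp hj').1 hne'⟩
    rw [mem_sdiff]
    refine ⟨hjK, fun hjp => ?_⟩
    unfold Dat.par at hjp
    rw [mem_filter] at hjp
    have haE : a ∈ D.E S j := by
      unfold Dat.E
      rw [mem_filter]
      exact ⟨haS, by rw [hj1]; exact one_ne_zero⟩
    have has := hjp.2 haE
    unfold Dat.sg at has
    rw [mem_filter] at has
    obtain ⟨-, c, -, hc⟩ := has
    apply hρa
    rw [hc ρ hρS, hρt, mul_zero]
  · -- out
    intro a ha haN j hj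
    rw [mem_sdiff] at ha
    by_contra hxa
    have hjK : j ∈ K := (mem_sdiff.mp hj).1
    have haN2 : a ∈ D.N S := by
      by_contra hn
      exact hxa (hI.out a ha.1 hn j hjK)
    have hz : ∀ ρ ∈ D.R S, ρ t = 0 → ρ a = 0 := by
      intro ρ hρ hρt
      by_contra hρa
      apply haN
      unfold Dat.N
      rw [mem_filter, mem_sdiff]
      exact ⟨ha, ρ, (hRX ρ hρ).mpr hρt, hρa⟩
    obtain ⟨c, hc⟩ := hDe S t a hz
    have hc0 : c ≠ 0 := by
      rintro rfl
      unfold Dat.N at haN2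
      rw [mem_filter] at haN2
      obtain ⟨-, ρ, hρ, hρa⟩ := haN2
      apply hρa
      rw [hc ρ hρ, zero_mul]
    have hasg : a ∈ D.sg S t := by
      unfold Dat.sg
      rw [mem_filter]
      exact ⟨ha.1, c, hc0, hc⟩
    have := (hFR j hj a hasg hxa).2
    exact ha.2 (this ▸ htX)
  · -- two
    intro j hj
    by_cases hjk : j = k
    · rw [hjk, hcard]; omega
    · rw [hE1 j hj hjk]
      exact hI.two j (mem_sdiff.mp hj).1
  · -- sum
    have h1 := hexc2 (K \ D.par S K t) (Subset.refl _) hkK2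
    have h2 := hI.sum
    omega
  · -- irr
    intro C hC hCne
    have hCK : C ⊆ K := fun j hj => (mem_sdiff.mp (hC hj)).1
    have hset : (S \ X) \ D.EK (S \ X) C = (S \ D.EK S C) \ X := by
      unfold Dat.EK
      ext a
      simp only [mem_sdiff, mem_filter]
      constructor
      · rintro ⟨⟨h1, h2⟩, h3⟩
        exact ⟨⟨h1, fun h => h3 ⟨⟨h1, h2⟩, h.2⟩⟩, h2⟩
      · rintro ⟨⟨h1, h3⟩, h2⟩
        exact ⟨⟨h1, h2⟩, fun h => h3 ⟨h1, h.2⟩⟩
    rw [hset]
    have hirr := hI.irr C hCK hCne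
    have hle : D.nul ((S \ D.EK S C) \ X) ≤ D.nul (S \ D.EK S C) :=
      hDa _ _ sdiff_subset
    by_cases hk : k ∈ C
    · have := hexc2 C hC hk
      omega
    · have h2 := hexc1 C hC hk
      rw [h2]
      by_cases hall : ∀ ρ ∈ D.R (S \ D.EK S C), ρ t = 0
      · have hlt : D.nul (S \ D.EK S C) + 1 + D.exc S C ≠ D.nul S := by
          intro heq
          have hsub := hF.tight C hCK hCne hk heq hall
          obtain ⟨j, hj⟩ := hCne
          exact (mem_sdiff.mp (hC hj)).2 (hsub hj)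
        omega
      · push Not at hall
        obtain ⟨ρ, hρ, hρt⟩ := hall
        have htA : t ∈ S \ D.EK S C := by
          by_contra hn
          exact hρt (hρ.2 t hn)
        have hlt : D.nul ((S \ D.EK S C) \ X) ≠ D.nul (S \ D.EK S C) := by
          intro heq
          have := (hDd _ _ sdiff_subset).mp heq ρ hρ t htA (by
            rw [mem_sdiff]
            exact fun h => h.2 htX)
          exact hρt this
        omega

end Pool.Agent.KTB.H54
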